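import Pool.Agent.Lib.MP_ba0fa5_ag.AA.IfaceA

/-!
MP_ba0fa5_ag, Theorem A: module EXP (the sum over the pairs of quadruples).
-/

namespace Pool.Agent.Lib.MP_ba0fa5_ag.AA.H37

open scoped Classical
open Finset

theorem dl_nonneg (l : ℕ) : 0 ≤ dl l := by
  unfold dl
  split_ifs <;> norm_num

theorem ws_nonneg (n : ℕ) : 0 ≤ ws n := prod_nonneg fun l _ => pow_nonneg (dl_nonneg l) _

theorem fw_nonneg (n : ℕ) : 0 ≤ fw n := div_nonneg (ws_nonneg n) (Nat.cast_nonneg _)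

theorem ws_eq (n : ℕ) : ws n = n.factorization.prod fun l k => dl l ^ k := rfl

theorem ws_mul {m n : ℕ} (hm : m ≠ 0) (hn : n ≠ 0) : ws (m * n) = ws m * ws n := by
  rw [ws_eq, ws_eq, ws_eq, Nat.factorization_mul hm hn]
  exact Finsupp.prod_add_index' (fun l => pow_zero _) (fun l a b => pow_add _ _ _)

theorem fw_mul {m n : ℕ} (hm : m ≠ 0) (hn : n ≠ 0) (h : m.Coprime n) :
    fw (m * n) = fw m * fw n := by
  rw [fw, fw, fw, ws_mul hm hn, Nat.totient_mul h, Nat.cast_mul, mul_div_mul_comm]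

theorem pairSum_nonneg (W c Z t d : ℕ) : 0 ≤ pairSum W c Z t d :=
  sum_nonneg fun p _ => mul_nonneg (fw_nonneg _) (fw_nonneg _)

theorem cf_nonneg (t d : ℕ) : 0 ≤ cf t d := by rw [cf]; positivity

theorem one_add_pow (n : ℕ) (a w : ℝ) (ha : 0 ≤ a) (hw : 0 ≤ w) (hw1 : w ≤ 1) :
    (1 + a * w) ^ n ≤ 1 + ((1 + a) ^ n - 1) * w := by
  induction n with
  | zero => simp
  | succ n ih =>
    have h1 : 0 ≤ (1 + a) ^ n - 1 := by
      have := one_le_pow₀ (n := n) (by linarith : (1 : ℝ) ≤ 1 + a)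
      linarith
    have h2 : 0 ≤ 1 + a * w := by positivity
    calc (1 + a * w) ^ (n + 1) = (1 + a * w) ^ n * (1 + a * w) := pow_succ _ _
      _ ≤ (1 + ((1 + a) ^ n - 1) * w) * (1 + a * w) := mul_le_mul_of_nonneg_right ih h2
      _ ≤ 1 + ((1 + a) ^ (n + 1) - 1) * w := by
          have h3 : ((1 + a) ^ n - 1) * w * (a * w) ≤ ((1 + a) ^ n - 1) * a * w := by
            have h4 : 0 ≤ ((1 + a) ^ n - 1) * a * w := by positivity
            nlinarith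
          rw [pow_succ]
          nlinarith

theorem vv_le_one (W z : ℕ) : VV W z ≤ 1 := by
  refine prod_le_one (fun l hl => ?_) (fun l hl => ?_)
  · have hp := (mem_filter.1 hl).2
    have h1 : (1 : ℝ) ≤ l := by exact_mod_cast hp.one_lt.le
    have h2 : 1 / (l : ℝ) ≤ 1 := by rw [div_le_one (by linarith)]; exact h1
    linarith
  · have : 0 ≤ 1 / (l : ℝ) := by positivity
    linarith

theorem vv_nonneg (W z : ℕ) : 0 ≤ VV W z := by
  refine prod_nonneg (fun l hl => ?_)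
  have hp := (mem_filter.1 hl).2
  have h1 : (1 : ℝ) ≤ l := by exact_mod_cast hp.one_lt.le
  have h2 : 1 / (l : ℝ) ≤ 1 := by rw [div_le_one (by linarith)]; exact h1
  linarith

/-- the sum over one class -/
noncomputable def cs (W a Y : ℕ) : ℝ := ∑ n ∈ cls W a Y (Y ^ 3), ws n / n

theorem cs_nonneg (W a Y : ℕ) : 0 ≤ cs W a Y :=
  sum_nonneg fun n _ => div_nonneg (ws_nonneg n) (Nat.cast_nonneg n)

theorem cls_ne {W a lo hi n : ℕ} (h : n ∈ cls W a lo hi) : n ≠ 0 := by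
  have := (mem_Ioc.1 (mem_filter.1 h).1).1
  omega

theorem mass_eq (W c Z : ℕ) : mass W c Z =
    cs W c Z * (cs W c (Z ^ 10) * (cs W ((primorial W - 1) * c) (Z ^ 100) * cs W 1 Z)) := by
  rw [mass, BoxAll, sum_product, cs, sum_mul]
  refine sum_congr rfl fun x hx => ?_
  rw [sum_product, cs, sum_mul, mul_sum]
  refine sum_congr rfl fun u hu => ?_
  rw [sum_product, cs, sum_mul, mul_sum, mul_sum]
  refine sum_congr rfl fun v hv => ?_
  rw [cs, mul_sum, mul_sum, mul_sum]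
  refine sum_congr rfl fun k hk => ?_
  have h1 := cls_ne hx
  have h2 := cls_ne hu
  have h3 := cls_ne hv
  have h4 := cls_ne hk
  simp only [HH]
  rw [ws_mul (mul_ne_zero (mul_ne_zero h1 h2) h3) h4, ws_mul (mul_ne_zero h1 h2) h3,
    ws_mul h1 h2, Nat.cast_mul, Nat.cast_mul, Nat.cast_mul, mul_div_mul_comm, mul_div_mul_comm,
    mul_div_mul_comm]
  ring

theorem box_sum_le (W c Z : ℕ) : ∑ q ∈ Box W c Z, fw (HH q) ≤
    (∑ n ∈ cls W c Z (Z ^ 3), fw n) * ((∑ n ∈ cls W c (Z ^ 10) ((Z ^ 10) ^ 3), fw n) *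
      ((∑ n ∈ cls W ((primorial W - 1) * c) (Z ^ 100) ((Z ^ 100) ^ 3), fw n) *
        ∑ n ∈ cls W 1 Z (Z ^ 3), fw n)) := by
  have h1 : ∀ q ∈ Box W c Z, fw (HH q) = fw q.1 * (fw q.2.1 * (fw q.2.2.1 * fw q.2.2.2)) := by
    rintro ⟨x, u, v, k⟩ hq
    obtain ⟨hb, hcop⟩ := mem_filter.1 hq
    rw [BoxAll, mem_product, mem_product, mem_product] at hb
    obtain ⟨hx, hu, hv, hk⟩ := hb
    obtain ⟨c1, c2, c3, c4, c5, c6⟩ := hcop
    dsimp only at hx hu hv hk c1 c2 c3 c4 c5 c6 ⊢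
    have n1 := cls_ne hx
    have n2 := cls_ne hu
    have n3 := cls_ne hv
    have n4 := cls_ne hk
    simp only [HH]
    rw [fw_mul (mul_ne_zero (mul_ne_zero n1 n2) n3) n4
        (Nat.Coprime.mul_left (Nat.Coprime.mul_left c3 c5) c6),
      fw_mul (mul_ne_zero n1 n2) n3 (Nat.Coprime.mul_left c2 c4), fw_mul n1 n2 c1]
    ring
  have h2 : (∑ n ∈ cls W c Z (Z ^ 3), fw n) * ((∑ n ∈ cls W c (Z ^ 10) ((Z ^ 10) ^ 3), fw n) *
      ((∑ n ∈ cls W ((primorial W - 1) * c) (Z ^ 100) ((Z ^ 100) ^ 3), fw n) *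
        ∑ n ∈ cls W 1 Z (Z ^ 3), fw n)) =
      ∑ q ∈ BoxAll W c Z, fw q.1 * (fw q.2.1 * (fw q.2.2.1 * fw q.2.2.2)) := by
    rw [BoxAll, sum_product, sum_mul]
    refine sum_congr rfl fun x hx => ?_
    rw [sum_product, sum_mul, mul_sum]
    refine sum_congr rfl fun u hu => ?_
    rw [sum_product, sum_mul, mul_sum, mul_sum]
    refine sum_congr rfl fun v hv => ?_
    rw [mul_sum, mul_sum, mul_sum]
  rw [sum_congr rfl h1, h2]
  refine sum_le_sum_of_subset_of_nonneg (filter_subset _ _) fun q _ _ => ?_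
  exact mul_nonneg (fw_nonneg _) (mul_nonneg (fw_nonneg _) (mul_nonneg (fw_nonneg _) (fw_nonneg _)))

theorem pairSum_one_le (W c Z : ℕ) : pairSum W c Z 1 1 ≤ (∑ q ∈ Box W c Z, fw (HH q)) ^ 2 := by
  rw [pairSum, sq, sum_mul_sum, ← sum_product']
  exact sum_le_sum_of_subset_of_nonneg (filter_subset _ _)
    fun p _ _ => mul_nonneg (fw_nonneg _) (fw_nonneg _)

theorem primorial_pos' (W : ℕ) : 0 < primorial W := primorial_pos W

theorem sub_one_mul_coprime {P c : ℕ} (hP : 0 < P) (h : c.Coprime P) :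
    ((P - 1) * c).Coprime P := by
  refine Nat.Coprime.mul_left ?_ h
  have h1 : P - 1 + 1 = P := Nat.sub_add_cancel hP
  have h2 : (P - 1).Coprime (P - 1 + 1) := by simp
  rwa [h1] at h2

/-- Module EXP. -/
theorem exp (h1 : ExpandStmt) (h2 : ExpmStmt) (h3 : ExptStmt) (h4 : PhixStmt)
    (h5 : MasslowStmt) : ExpStmt := by
  obtain ⟨C1, hC1, h2⟩ := h2
  obtain ⟨C2, hC2, h4⟩ := h4
  set K : ℝ := (1 + C2) ^ 8 - 1 with hK
  have hK0 : 0 ≤ K := by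
    have := one_le_pow₀ (n := 8) (by linarith : (1 : ℝ) ≤ 1 + C2)
    linarith
  refine ⟨K + C1 + 1, by positivity, fun W hW => ?_⟩
  set w : ℝ := (W : ℝ) ^ (-(1 / 4) : ℝ) with hw
  have hW1 : (1 : ℝ) ≤ W := by
    have : 1 ≤ W := by omega
    exact_mod_cast this
  have hw0 : 0 < w := Real.rpow_pos_of_pos (by linarith) _
  have hw1 : w ≤ 1 := Real.rpow_le_one_of_one_le_of_nonpos hW1 (by norm_num)
  obtain ⟨Z2, h2⟩ := h2 W hW
  obtain ⟨Z3, h3⟩ := h3 W hW w hw0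
  obtain ⟨Y4, h4⟩ := h4 W hW
  obtain ⟨Z5, h5⟩ := h5 W hW 1
  refine ⟨max (max Z2 Z3) (max (max Y4 Z5) 2), fun Z c hZ hc => ?_⟩
  have hZ2 : Z2 ≤ Z := (le_max_left _ _).trans ((le_max_left _ _).trans hZ)
  have hZ3 : Z3 ≤ Z := (le_max_right _ _).trans ((le_max_left _ _).trans hZ)
  have hZ4 : Y4 ≤ Z := (le_max_left _ _).trans ((le_max_left _ _).trans ((le_max_right _ _).trans hZ))
  have hZ5 : Z5 ≤ Z := (le_max_right _ _).trans ((le_max_left _ _).trans ((le_max_right _ _).trans hZ))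
  have hZt : 2 ≤ Z := (le_max_right _ _).trans ((le_max_right _ _).trans hZ)
  have h2 := h2 Z c hZ2 hc
  have h3 := h3 Z c hZ3 hc
  have h5 := h5 Z c hZ5 hc
  set M : ℝ := mass W c Z with hM
  have hP := primorial_pos' W
  have hMeq := mass_eq W c Z
  have hM0 : 0 ≤ M := by
    rw [hM, hMeq]
    exact mul_nonneg (cs_nonneg _ _ _) (mul_nonneg (cs_nonneg _ _ _)
      (mul_nonneg (cs_nonneg _ _ _) (cs_nonneg _ _ _)))
  have hM1 : 1 ≤ M := by
    have := mul_le_mul_of_nonneg_right (vv_le_one W (zz Z)) hM0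
    linarith
  have hMsq : 1 ≤ M ^ 2 := by nlinarith
  -- the term (1,1)
  have hZ10 : Z ≤ Z ^ 10 := Nat.le_self_pow (by norm_num) Z
  have hZ100 : Z ≤ Z ^ 100 := Nat.le_self_pow (by norm_num) Z
  have a1 := h4 Z c hZ4 hc
  have a2 := h4 (Z ^ 10) c (hZ4.trans hZ10) hc
  have a3 := h4 (Z ^ 100) ((primorial W - 1) * c) (hZ4.trans hZ100) (sub_one_mul_coprime hP hc)
  have a4 := h4 Z 1 hZ4 (Nat.coprime_one_left _)
  have hn : ∀ a lo hi : ℕ, 0 ≤ ∑ n ∈ cls W a lo hi, fw n := fun a lo hi =>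
    sum_nonneg fun n _ => fw_nonneg n
  have hf : 0 ≤ 1 + C2 * w := by positivity
  have hbox : ∑ q ∈ Box W c Z, fw (HH q) ≤ (1 + C2 * w) ^ 4 * M := by
    refine (box_sum_le W c Z).trans ?_
    have b1 : (∑ n ∈ cls W ((primorial W - 1) * c) (Z ^ 100) ((Z ^ 100) ^ 3), fw n) *
        (∑ n ∈ cls W 1 Z (Z ^ 3), fw n) ≤
        ((1 + C2 * w) * cs W ((primorial W - 1) * c) (Z ^ 100)) * ((1 + C2 * w) * cs W 1 Z) :=
      mul_le_mul a3 a4 (hn _ _ _) (mul_nonneg hf (cs_nonneg _ _ _))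
    have b2 := mul_le_mul a2 b1 (mul_nonneg (hn _ _ _) (hn _ _ _))
      (mul_nonneg hf (cs_nonneg W c (Z ^ 10)))
    have b3 := mul_le_mul a1 b2 (mul_nonneg (hn _ _ _) (mul_nonneg (hn _ _ _) (hn _ _ _)))
      (mul_nonneg hf (cs_nonneg W c Z))
    refine b3.trans (le_of_eq ?_)
    rw [hM, hMeq]
    simp only [cs]
    ring
  have hbox0 : 0 ≤ ∑ q ∈ Box W c Z, fw (HH q) := sum_nonneg fun q _ => fw_nonneg _
  have h11 : cf 1 1 * pairSum W c Z 1 1 ≤ (1 + K * w) * M ^ 2 := by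
    have e1 : cf 1 1 = 1 := by simp [cf]
    rw [e1, one_mul]
    refine (pairSum_one_le W c Z).trans ?_
    calc (∑ q ∈ Box W c Z, fw (HH q)) ^ 2 ≤ ((1 + C2 * w) ^ 4 * M) ^ 2 :=
          pow_le_pow_left₀ hbox0 hbox 2
      _ = (1 + C2 * w) ^ 8 * M ^ 2 := by ring
      _ ≤ (1 + K * w) * M ^ 2 :=
          mul_le_mul_of_nonneg_right (one_add_pow 8 C2 w hC2.le hw0.le hw1) (sq_nonneg _)
  -- splitting the sum
  refine (h1 W Z c hW hZt hc).trans ?_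
  set A := (Icc 1 (3 * Z ^ 300) ×ˢ Icc 1 (3 * Z ^ 300)).filter
        (fun s => Rgh W s.1 ∧ Rgh W s.2) with hA
  set B := (Icc 1 (TZ Z) ×ˢ Icc 1 (TZ Z)).filter
    (fun s => s ≠ (1, 1) ∧ Rgh W s.1 ∧ Rgh W s.2) with hB
  set D := (Icc 1 (3 * Z ^ 300) ×ˢ Icc 1 (3 * Z ^ 300)).filter
      (fun s => ¬ (s.1 ≤ TZ Z ∧ s.2 ≤ TZ Z)) with hD
  have hsub : A ⊆ ({(1, 1)} : Finset (ℕ × ℕ)) ∪ (B ∪ D) := by
    intro s hs
    rw [hA, mem_filter, mem_product, mem_Icc, mem_Icc] at hs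
    obtain ⟨⟨⟨s1, s2⟩, s3, s4⟩, s5, s6⟩ := hs
    rw [mem_union, mem_union, mem_singleton]
    by_cases k1 : s = (1, 1)
    · exact Or.inl k1
    · right
      by_cases k2 : s.1 ≤ TZ Z ∧ s.2 ≤ TZ Z
      · left
        rw [hB, mem_filter, mem_product, mem_Icc, mem_Icc]
        exact ⟨⟨⟨s1, k2.1⟩, s3, k2.2⟩, k1, s5, s6⟩
      · right
        rw [hD, mem_filter, mem_product, mem_Icc, mem_Icc]
        exact ⟨⟨⟨s1, s2⟩, s3, s4⟩, k2⟩
  have hnn : ∀ s : ℕ × ℕ, 0 ≤ cf s.1 s.2 * pairSum W c Z s.1 s.2 := fun s =>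
    mul_nonneg (cf_nonneg _ _) (pairSum_nonneg _ _ _ _ _)
  have hun : ∀ S T : Finset (ℕ × ℕ), ∑ s ∈ S ∪ T, cf s.1 s.2 * pairSum W c Z s.1 s.2 ≤
      ∑ s ∈ S, cf s.1 s.2 * pairSum W c Z s.1 s.2 +
        ∑ s ∈ T, cf s.1 s.2 * pairSum W c Z s.1 s.2 := by
    intro S T
    have := sum_union_inter (s₁ := S) (s₂ := T)
      (f := fun s : ℕ × ℕ => cf s.1 s.2 * pairSum W c Z s.1 s.2)
    have h0 : 0 ≤ ∑ s ∈ S ∩ T, cf s.1 s.2 * pairSum W c Z s.1 s.2 := sum_nonneg fun s _ => hnn s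
    linarith
  have t1 := sum_le_sum_of_subset_of_nonneg hsub fun s _ _ => hnn s
  have t2 := hun {(1, 1)} (B ∪ D)
  have t3 := hun B D
  rw [sum_singleton] at t2
  dsimp only at t2
  have hwM : w ≤ w * M ^ 2 := by nlinarith
  have t4 : ∑ s ∈ A, cf s.1 s.2 * pairSum W c Z s.1 s.2 ≤
      (1 + K * w) * M ^ 2 + (C1 * w * M ^ 2 + w * M ^ 2) := by linarith
  refine t4.trans (le_of_eq ?_)
  ring

end Pool.Agent.Lib.MP_ba0fa5_ag.AA.H37
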