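import Pool.Agent.Lib.MP_ba0fa5_ag.AA.IfaceA

/-!
MP_ba0fa5_ag, Theorem A: module EXPM (the small pairs `(t, d)`).
-/

namespace Pool.Agent.Lib.MP_ba0fa5_ag.AA.H37

open scoped Classical
open Finset

theorem rgh_lt {W n : ℕ} (h : Rgh W n) (h1 : 1 < n) : W < n := by
  obtain ⟨l, hl, hd⟩ := Nat.exists_prime_and_dvd (n := n) (by omega)
  exact lt_of_lt_of_le (h l hl hd) (Nat.le_of_dvd (by omega) hd)

/-- the arithmetic estimate for one term -/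
theorem term_est {C : ℝ} (hC : 0 < C) (h : ∀ n : ℕ, 1 ≤ n →
    (n.divisors.card : ℝ) ≤ C * (n : ℝ) ^ (1 / 100 : ℝ) ∧
    (n : ℝ) / n.totient ≤ C * (n : ℝ) ^ (1 / 100 : ℝ) ∧
    (4 : ℝ) ^ n.primeFactors.card ≤ C * (n : ℝ) ^ (1 / 100 : ℝ)) (t d : ℕ) (ht : 1 ≤ t)
    (hd : 1 ≤ d) :
    cf t d * ((t.divisors.card : ℝ) ^ 8 / ((t.totient : ℝ) ^ 2 * (t.lcm d).totient)) ≤
      C ^ 13 * ((t : ℝ) ^ (-(11 / 8) : ℝ) * (d : ℝ) ^ (-(11 / 8) : ℝ)) := by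
  have hT : (1 : ℝ) ≤ t := by exact_mod_cast ht
  have hD : (1 : ℝ) ≤ d := by exact_mod_cast hd
  have hT0 : (0 : ℝ) < t := by linarith
  have hD0 : (0 : ℝ) < d := by linarith
  have hl1 : 1 ≤ t.lcm d := Nat.lcm_pos ht hd
  have hL1 : (1 : ℝ) ≤ (t.lcm d : ℕ) := by exact_mod_cast hl1
  have hL0 : (0 : ℝ) < (t.lcm d : ℕ) := by linarith
  have hft : (0 : ℝ) < t.totient := by exact_mod_cast Nat.totient_pos.2 ht
  have hfd : (0 : ℝ) < d.totient := by exact_mod_cast Nat.totient_pos.2 hd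
  have hfl : (0 : ℝ) < (t.lcm d).totient := by exact_mod_cast Nat.totient_pos.2 hl1
  obtain ⟨a1, a2, a3⟩ := h t ht
  obtain ⟨b1, b2, b3⟩ := h d hd
  obtain ⟨c1, c2, c3⟩ := h (t.lcm d) hl1
  -- inverse totients
  have it : (1 : ℝ) / t.totient ≤ C * (t : ℝ) ^ (-(99 / 100) : ℝ) := by
    have e : (t : ℝ) ^ (-(99 / 100) : ℝ) = (t : ℝ) ^ (1 / 100 : ℝ) / t := by
      rw [show (-(99 / 100) : ℝ) = 1 / 100 - 1 by norm_num, Real.rpow_sub_one hT0.ne']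
    rw [e, ← mul_div_assoc, le_div_iff₀ hT0, one_div_mul_eq_div]
    exact a2
  have idd : (1 : ℝ) / d.totient ≤ C * (d : ℝ) ^ (-(99 / 100) : ℝ) := by
    have e : (d : ℝ) ^ (-(99 / 100) : ℝ) = (d : ℝ) ^ (1 / 100 : ℝ) / d := by
      rw [show (-(99 / 100) : ℝ) = 1 / 100 - 1 by norm_num, Real.rpow_sub_one hD0.ne']
    rw [e, ← mul_div_assoc, le_div_iff₀ hD0, one_div_mul_eq_div]
    exact b2
  have il : (1 : ℝ) / (t.lcm d).totient ≤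
      C * ((t : ℝ) ^ (-(99 / 200) : ℝ) * (d : ℝ) ^ (-(99 / 200) : ℝ)) := by
    have e : ((t.lcm d : ℕ) : ℝ) ^ (-(99 / 100) : ℝ) =
        ((t.lcm d : ℕ) : ℝ) ^ (1 / 100 : ℝ) / (t.lcm d : ℕ) := by
      rw [show (-(99 / 100) : ℝ) = 1 / 100 - 1 by norm_num, Real.rpow_sub_one hL0.ne']
    have e2 : (1 : ℝ) / (t.lcm d).totient ≤ C * ((t.lcm d : ℕ) : ℝ) ^ (-(99 / 100) : ℝ) := by
      rw [e, ← mul_div_assoc, le_div_iff₀ hL0, one_div_mul_eq_div]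
      exact c2
    refine e2.trans (mul_le_mul_of_nonneg_left ?_ hC.le)
    have e3 : (t : ℝ) ≤ (t.lcm d : ℕ) := by
      exact_mod_cast Nat.le_of_dvd hl1 (Nat.dvd_lcm_left t d)
    have e4 : (d : ℝ) ≤ (t.lcm d : ℕ) := by
      exact_mod_cast Nat.le_of_dvd hl1 (Nat.dvd_lcm_right t d)
    have e5 : ((t.lcm d : ℕ) : ℝ) ^ (-(99 / 100) : ℝ) =
        ((t.lcm d : ℕ) : ℝ) ^ (-(99 / 200) : ℝ) * ((t.lcm d : ℕ) : ℝ) ^ (-(99 / 200) : ℝ) := by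
      rw [← Real.rpow_add hL0]
      norm_num
    rw [e5]
    exact mul_le_mul (Real.rpow_le_rpow_of_nonpos hT0 e3 (by norm_num))
      (Real.rpow_le_rpow_of_nonpos hD0 e4 (by norm_num)) (Real.rpow_nonneg hL0.le _)
      (Real.rpow_nonneg hT0.le _)
  have hb8 : (t.divisors.card : ℝ) ^ 8 ≤ C ^ 8 * (t : ℝ) ^ (8 / 100 : ℝ) := by
    calc (t.divisors.card : ℝ) ^ 8 ≤ (C * (t : ℝ) ^ (1 / 100 : ℝ)) ^ 8 :=
          pow_le_pow_left₀ (Nat.cast_nonneg _) a1 8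
      _ = C ^ 8 * (t : ℝ) ^ (8 / 100 : ℝ) := by
          rw [mul_pow, ← Real.rpow_mul_natCast hT0.le]
          norm_num
  have h1 : cf t d * ((t.divisors.card : ℝ) ^ 8 / ((t.totient : ℝ) ^ 2 * (t.lcm d).totient)) =
      (t : ℝ) * 4 ^ t.primeFactors.card * (t.divisors.card : ℝ) ^ 8 * (1 / d.totient) *
        ((1 / t.totient) * (1 / t.totient)) * (1 / (t.lcm d).totient) := by
    rw [cf]
    field_simp
  rw [h1]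
  have p1 : (0 : ℝ) ≤ (t : ℝ) * 4 ^ t.primeFactors.card := by positivity
  have q1 : (t : ℝ) * 4 ^ t.primeFactors.card ≤ t * (C * (t : ℝ) ^ (1 / 100 : ℝ)) :=
    mul_le_mul_of_nonneg_left a3 hT0.le
  have q2 : (t : ℝ) * 4 ^ t.primeFactors.card * (t.divisors.card : ℝ) ^ 8 ≤
      t * (C * (t : ℝ) ^ (1 / 100 : ℝ)) * (C ^ 8 * (t : ℝ) ^ (8 / 100 : ℝ)) :=
    mul_le_mul q1 hb8 (by positivity) (by positivity)
  have q3 : (t : ℝ) * 4 ^ t.primeFactors.card * (t.divisors.card : ℝ) ^ 8 * (1 / d.totient) ≤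
      t * (C * (t : ℝ) ^ (1 / 100 : ℝ)) * (C ^ 8 * (t : ℝ) ^ (8 / 100 : ℝ)) *
        (C * (d : ℝ) ^ (-(99 / 100) : ℝ)) :=
    mul_le_mul q2 idd (by positivity) (by positivity)
  have q4 : (t : ℝ) * 4 ^ t.primeFactors.card * (t.divisors.card : ℝ) ^ 8 * (1 / d.totient) *
      ((1 / t.totient) * (1 / t.totient)) ≤
      t * (C * (t : ℝ) ^ (1 / 100 : ℝ)) * (C ^ 8 * (t : ℝ) ^ (8 / 100 : ℝ)) *
        (C * (d : ℝ) ^ (-(99 / 100) : ℝ)) *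
        ((C * (t : ℝ) ^ (-(99 / 100) : ℝ)) * (C * (t : ℝ) ^ (-(99 / 100) : ℝ))) :=
    mul_le_mul q3 (mul_le_mul it it (by positivity) (by positivity)) (by positivity)
      (by positivity)
  have q5 : (t : ℝ) * 4 ^ t.primeFactors.card * (t.divisors.card : ℝ) ^ 8 * (1 / d.totient) *
      ((1 / t.totient) * (1 / t.totient)) * (1 / (t.lcm d).totient) ≤
      t * (C * (t : ℝ) ^ (1 / 100 : ℝ)) * (C ^ 8 * (t : ℝ) ^ (8 / 100 : ℝ)) *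
        (C * (d : ℝ) ^ (-(99 / 100) : ℝ)) *
        ((C * (t : ℝ) ^ (-(99 / 100) : ℝ)) * (C * (t : ℝ) ^ (-(99 / 100) : ℝ))) *
        (C * ((t : ℝ) ^ (-(99 / 200) : ℝ) * (d : ℝ) ^ (-(99 / 200) : ℝ))) :=
    mul_le_mul q4 il (by positivity) (by positivity)
  refine q5.trans ?_
  have e1 : (t : ℝ) * (C * (t : ℝ) ^ (1 / 100 : ℝ)) * (C ^ 8 * (t : ℝ) ^ (8 / 100 : ℝ)) *
        (C * (d : ℝ) ^ (-(99 / 100) : ℝ)) *
        ((C * (t : ℝ) ^ (-(99 / 100) : ℝ)) * (C * (t : ℝ) ^ (-(99 / 100) : ℝ))) *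
        (C * ((t : ℝ) ^ (-(99 / 200) : ℝ) * (d : ℝ) ^ (-(99 / 200) : ℝ))) =
      C ^ 13 * (((t : ℝ) ^ (1 : ℝ) * (t : ℝ) ^ (1 / 100 : ℝ) * (t : ℝ) ^ (8 / 100 : ℝ) *
        (t : ℝ) ^ (-(99 / 100) : ℝ) * (t : ℝ) ^ (-(99 / 100) : ℝ) * (t : ℝ) ^ (-(99 / 200) : ℝ)) *
        ((d : ℝ) ^ (-(99 / 100) : ℝ) * (d : ℝ) ^ (-(99 / 200) : ℝ))) := by
    rw [Real.rpow_one]
    ring
  rw [e1, ← Real.rpow_add hT0, ← Real.rpow_add hT0, ← Real.rpow_add hT0, ← Real.rpow_add hT0,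
    ← Real.rpow_add hT0, ← Real.rpow_add hD0]
  refine mul_le_mul_of_nonneg_left ?_ (by positivity)
  refine mul_le_mul (Real.rpow_le_rpow_of_exponent_le hT (by norm_num))
    (Real.rpow_le_rpow_of_exponent_le hD (by norm_num)) (Real.rpow_nonneg hD0.le _)
    (Real.rpow_nonneg hT0.le _)

/-- the sum over the rough pairs -/
theorem pair_sum_le : ∃ S : ℝ, 0 < S ∧ ∀ W N : ℕ, 3 ≤ W →
    ∑ s ∈ (Icc 1 N ×ˢ Icc 1 N).filter (fun s => s ≠ (1, 1) ∧ Rgh W s.1 ∧ Rgh W s.2),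
      ((s.1 : ℝ) ^ (-(11 / 8) : ℝ) * (s.2 : ℝ) ^ (-(11 / 8) : ℝ)) ≤
        S * (W : ℝ) ^ (-(1 / 4) : ℝ) := by
  have hs : Summable (fun n : ℕ => (n : ℝ) ^ (-(9 / 8) : ℝ)) :=
    Real.summable_nat_rpow.2 (by norm_num)
  set T : ℝ := ∑' n : ℕ, (n : ℝ) ^ (-(9 / 8) : ℝ) with hT
  have hT0 : 0 ≤ T := tsum_nonneg fun n => Real.rpow_nonneg (Nat.cast_nonneg n) _
  have hle : ∀ N : ℕ, ∑ n ∈ Icc 1 N, (n : ℝ) ^ (-(9 / 8) : ℝ) ≤ T := fun N =>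
    hs.sum_le_tsum _ fun n _ => Real.rpow_nonneg (Nat.cast_nonneg n) _
  refine ⟨T * T + 1, by positivity, fun W N hW => ?_⟩
  have hW0 : (0 : ℝ) < W := by
    have : 0 < W := by omega
    exact_mod_cast this
  have hterm : ∀ s ∈ (Icc 1 N ×ˢ Icc 1 N).filter (fun s => s ≠ (1, 1) ∧ Rgh W s.1 ∧ Rgh W s.2),
      ((s.1 : ℝ) ^ (-(11 / 8) : ℝ) * (s.2 : ℝ) ^ (-(11 / 8) : ℝ)) ≤
        (W : ℝ) ^ (-(1 / 4) : ℝ) *
          ((s.1 : ℝ) ^ (-(9 / 8) : ℝ) * (s.2 : ℝ) ^ (-(9 / 8) : ℝ)) := by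
    rintro ⟨t, d⟩ hs
    rw [mem_filter, mem_product, mem_Icc, mem_Icc] at hs
    obtain ⟨⟨⟨ht, _⟩, hd, _⟩, hne, h1, h2⟩ := hs
    dsimp only at ht hd h1 h2 ⊢
    have hT1 : (1 : ℝ) ≤ t := by exact_mod_cast ht
    have hD1 : (1 : ℝ) ≤ d := by exact_mod_cast hd
    have hTp : (0 : ℝ) < t := by linarith
    have hDp : (0 : ℝ) < d := by linarith
    have key : ∀ x : ℝ, 0 < x → (W : ℝ) ≤ x →
        x ^ (-(11 / 8) : ℝ) ≤ (W : ℝ) ^ (-(1 / 4) : ℝ) * x ^ (-(9 / 8) : ℝ) := by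
      intro x hx hWx
      have e : x ^ (-(11 / 8) : ℝ) = x ^ (-(1 / 4) : ℝ) * x ^ (-(9 / 8) : ℝ) := by
        rw [← Real.rpow_add hx]; norm_num
      rw [e]
      exact mul_le_mul_of_nonneg_right (Real.rpow_le_rpow_of_nonpos hW0 hWx (by norm_num))
        (Real.rpow_nonneg hx.le _)
    have key2 : ∀ x : ℝ, 1 ≤ x → x ^ (-(11 / 8) : ℝ) ≤ x ^ (-(9 / 8) : ℝ) := fun x hx =>
      Real.rpow_le_rpow_of_exponent_le hx (by norm_num)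
    by_cases h3 : 1 < t
    · have hWt : (W : ℝ) ≤ t := by exact_mod_cast (rgh_lt h1 h3).le
      rw [← mul_assoc]
      exact mul_le_mul (key t hTp hWt) (key2 d hD1) (Real.rpow_nonneg hDp.le _)
        (mul_nonneg (Real.rpow_nonneg hW0.le _) (Real.rpow_nonneg hTp.le _))
    · have h4 : 1 < d := by
        by_contra h4
        apply hne
        have e1 : t = 1 := by omega
        have e2 : d = 1 := by omega
        rw [e1, e2]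
      have hWd : (W : ℝ) ≤ d := by exact_mod_cast (rgh_lt h2 h4).le
      rw [mul_left_comm]
      exact mul_le_mul (key2 t hT1) (key d hDp hWd) (Real.rpow_nonneg hDp.le _)
        (Real.rpow_nonneg hTp.le _)
  calc ∑ s ∈ (Icc 1 N ×ˢ Icc 1 N).filter (fun s => s ≠ (1, 1) ∧ Rgh W s.1 ∧ Rgh W s.2),
      ((s.1 : ℝ) ^ (-(11 / 8) : ℝ) * (s.2 : ℝ) ^ (-(11 / 8) : ℝ))
      ≤ ∑ s ∈ (Icc 1 N ×ˢ Icc 1 N).filter (fun s => s ≠ (1, 1) ∧ Rgh W s.1 ∧ Rgh W s.2),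
        (W : ℝ) ^ (-(1 / 4) : ℝ) *
          ((s.1 : ℝ) ^ (-(9 / 8) : ℝ) * (s.2 : ℝ) ^ (-(9 / 8) : ℝ)) := sum_le_sum hterm
    _ ≤ ∑ s ∈ Icc 1 N ×ˢ Icc 1 N, (W : ℝ) ^ (-(1 / 4) : ℝ) *
          ((s.1 : ℝ) ^ (-(9 / 8) : ℝ) * (s.2 : ℝ) ^ (-(9 / 8) : ℝ)) := by
        refine sum_le_sum_of_subset_of_nonneg (filter_subset _ _) fun s _ _ => ?_
        positivity
    _ = (W : ℝ) ^ (-(1 / 4) : ℝ) * ((∑ n ∈ Icc 1 N, (n : ℝ) ^ (-(9 / 8) : ℝ)) *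
          ∑ n ∈ Icc 1 N, (n : ℝ) ^ (-(9 / 8) : ℝ)) := by
        rw [← mul_sum, sum_product, sum_mul_sum]
    _ ≤ (W : ℝ) ^ (-(1 / 4) : ℝ) * (T * T) := by
        refine mul_le_mul_of_nonneg_left ?_ (Real.rpow_nonneg hW0.le _)
        exact mul_le_mul (hle N) (hle N)
          (sum_nonneg fun n _ => Real.rpow_nonneg (Nat.cast_nonneg n) _) hT0
    _ ≤ (T * T + 1) * (W : ℝ) ^ (-(1 / 4) : ℝ) := by
        rw [mul_comm]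
        exact mul_le_mul_of_nonneg_right (by linarith) (Real.rpow_nonneg hW0.le _)

/-- Module EXPM. -/
theorem expm (h1 : TermStmt) (h2 : DivbStmt) : ExpmStmt := by
  obtain ⟨C1, hC1, h1⟩ := h1
  obtain ⟨C2, hC2, h2⟩ := h2 (1 / 100) (by norm_num)
  obtain ⟨S, hS, h3⟩ := pair_sum_le
  refine ⟨C1 * C2 ^ 13 * S, by positivity, fun W hW => ?_⟩
  obtain ⟨Z₀, hZ⟩ := h1 W hW
  refine ⟨Z₀, fun Z c hZZ hc => ?_⟩
  have hm : 0 ≤ mass W c Z ^ 2 := sq_nonneg _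
  have hterm : ∀ s ∈ (Icc 1 (TZ Z) ×ˢ Icc 1 (TZ Z)).filter
      (fun s => s ≠ (1, 1) ∧ Rgh W s.1 ∧ Rgh W s.2),
      cf s.1 s.2 * pairSum W c Z s.1 s.2 ≤ C1 * C2 ^ 13 * mass W c Z ^ 2 *
        ((s.1 : ℝ) ^ (-(11 / 8) : ℝ) * (s.2 : ℝ) ^ (-(11 / 8) : ℝ)) := by
    rintro ⟨t, d⟩ hs
    rw [mem_filter, mem_product, mem_Icc, mem_Icc] at hs
    obtain ⟨⟨⟨ht, ht'⟩, hd, hd'⟩, _, r1, r2⟩ := hs
    dsimp only at ht ht' hd hd' r1 r2 ⊢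
    have hcf : 0 ≤ cf t d := by rw [cf]; positivity
    have e1 := hZ Z c t d hZZ hc ht ht' hd hd' r1 r2
    have e2 := term_est hC2 h2 t d ht hd
    calc cf t d * pairSum W c Z t d ≤ cf t d * (C1 * (t.divisors.card : ℝ) ^ 8 /
          ((t.totient : ℝ) ^ 2 * (t.lcm d).totient) * mass W c Z ^ 2) :=
          mul_le_mul_of_nonneg_left e1 hcf
      _ = C1 * mass W c Z ^ 2 * (cf t d * ((t.divisors.card : ℝ) ^ 8 /
          ((t.totient : ℝ) ^ 2 * (t.lcm d).totient))) := by ring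
      _ ≤ C1 * mass W c Z ^ 2 * (C2 ^ 13 *
          ((t : ℝ) ^ (-(11 / 8) : ℝ) * (d : ℝ) ^ (-(11 / 8) : ℝ))) :=
          mul_le_mul_of_nonneg_left e2 (by positivity)
      _ = _ := by ring
  calc _ ≤ ∑ s ∈ (Icc 1 (TZ Z) ×ˢ Icc 1 (TZ Z)).filter
          (fun s => s ≠ (1, 1) ∧ Rgh W s.1 ∧ Rgh W s.2), C1 * C2 ^ 13 * mass W c Z ^ 2 *
        ((s.1 : ℝ) ^ (-(11 / 8) : ℝ) * (s.2 : ℝ) ^ (-(11 / 8) : ℝ)) := sum_le_sum hterm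
    _ = C1 * C2 ^ 13 * mass W c Z ^ 2 * ∑ s ∈ (Icc 1 (TZ Z) ×ˢ Icc 1 (TZ Z)).filter
          (fun s => s ≠ (1, 1) ∧ Rgh W s.1 ∧ Rgh W s.2),
        ((s.1 : ℝ) ^ (-(11 / 8) : ℝ) * (s.2 : ℝ) ^ (-(11 / 8) : ℝ)) := by rw [mul_sum]
    _ ≤ C1 * C2 ^ 13 * mass W c Z ^ 2 * (S * (W : ℝ) ^ (-(1 / 4) : ℝ)) :=
        mul_le_mul_of_nonneg_left (h3 W (TZ Z) hW) (by positivity)
    _ = _ := by ring

end Pool.Agent.Lib.MP_ba0fa5_ag.AA.H37
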